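import Mathlib

open Set Filter Topology MeasureTheory
open scoped ENNReal

namespace Pool.Agent.Results.MP_c2298c_an.NotCompact

section
variable {E : Type} [NormedAddCommGroup E] [NormedSpace ℝ E] [LE E]

/-- `U` is a substochastic (positive, contractive) `C₀`-semigroup -/
def Substochastic (U : ℝ → E →L[ℝ] E) : Prop :=
  U 0 = 1 ∧ (∀ s t, 0 ≤ s → 0 ≤ t → U (s + t) = U s * U t) ∧
    (∀ φ, ContinuousOn (fun t => U t φ) (Ici 0)) ∧
    ∀ t, 0 ≤ t → ‖U t‖ ≤ 1 ∧ ∀ φ, 0 ≤ φ → 0 ≤ U t φ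

/-- `φ ∈ D(T)` and `T φ = ψ` for the generator `T` of `U` -/
def Gen (U : ℝ → E →L[ℝ] E) (φ ψ : E) : Prop :=
  Tendsto (fun t : ℝ => t⁻¹ • (U t φ - φ)) (𝓝[>] 0) (𝓝 ψ)

/-- `B` is linear, `T`-bounded and positive on `D(T)`, and `B (λ - T)⁻¹` has norm less than one
(so spectral radius less than one) for all large `λ` -/
def Perturbation (U : ℝ → E →L[ℝ] E) (B : E → E) : Prop :=
  (∀ φ ψ φ' ψ' (r : ℝ), Gen U φ ψ → Gen U φ' ψ' → B (r • φ + φ') = r • B φ + B φ') ∧
    (∃ a b : ℝ, ∀ φ ψ, Gen U φ ψ → ‖B φ‖ ≤ a * ‖φ‖ + b * ‖ψ‖) ∧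
    (∀ φ ψ, Gen U φ ψ → 0 ≤ φ → 0 ≤ B φ) ∧
    ∃ l₀ : ℝ, ∀ l ≥ l₀, ∃ K : E →L[ℝ] E, ‖K‖ < 1 ∧ ∀ φ ψ, Gen U φ ψ → K (l • φ - ψ) = B φ

/-- `W j` are the Dyson-Phillips terms -/
def DysonPhillips (U : ℝ → E →L[ℝ] E) (B : E → E) (W : ℕ → ℝ → E →L[ℝ] E) : Prop :=
  W 0 = U ∧ ∀ j t, 0 ≤ t → ∀ φ ψ, Gen U φ ψ →
    IntervalIntegrable (fun s => W j (t - s) (B (U s φ))) volume 0 t ∧
      W (j + 1) t φ = ∫ s in (0 : ℝ)..t, W j (t - s) (B (U s φ))

/-- `A` maps bounded sets to relatively weakly compact sets -/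
def WeaklyCompact (A : E →L[ℝ] E) : Prop :=
  ∀ S : Set E, Bornology.IsBounded S → IsCompact (closure (toWeakSpace ℝ E '' (A '' S)))

/-- `W 1 t` is weakly compact for every `t ≥ 0`, but `W 3 t` is compact for no `t > 0` and `W 4`
is not norm continuous on `[0, ∞)` -/
def Counterexample (E : Type) [NormedAddCommGroup E] [NormedSpace ℝ E] [LE E] : Prop :=
  ∃ (U : ℝ → E →L[ℝ] E) (B : E → E) (W : ℕ → ℝ → E →L[ℝ] E),
    Substochastic U ∧ Perturbation U B ∧ DysonPhillips U B W ∧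
      (∀ t, 0 ≤ t → WeaklyCompact (W 1 t)) ∧ (∀ t, 0 < t → ¬ IsCompactOperator (W 3 t)) ∧
        ¬ ContinuousOn (W 4) (Ici 0)

omit [LE E] in
theorem wc {H : Type} [NormedAddCommGroup H] [InnerProductSpace ℝ H] [CompleteSpace H]
    {C : E →L[ℝ] E} (hC : IsCompactOperator C) (J : H →L[ℝ] E) (A : E →L[ℝ] H) :
    WeaklyCompact (C + J ∘L A) := by
  intro S hS
  obtain ⟨K, hK, hKS⟩ := IsCompactOperator.image_subset_compact_of_bounded
    (f := (C : E →ₗ[ℝ] E)) hC hS
  obtain ⟨r, hr⟩ := (A.lipschitz.isBounded_image hS).subset_closedBall 0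
  let Φ : WeakDual ℝ H → WeakSpace ℝ E := fun ξ =>
    toWeakSpace ℝ E (J ((InnerProductSpace.toDual ℝ H).symm (WeakDual.toStrongDual ξ)))
  have hΦ : Continuous Φ := by
    refine WeakBilin.continuous_of_continuous_eval _ fun l => ?_
    refine (WeakDual.eval_continuous ((InnerProductSpace.toDual ℝ H).symm (l ∘L J))).congr
      fun ξ => ?_
    change (WeakDual.toStrongDual ξ) _ =
      (l ∘L J) ((InnerProductSpace.toDual ℝ H).symm (WeakDual.toStrongDual ξ))
    rw [← InnerProductSpace.toDual_symm_apply, real_inner_comm,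
      InnerProductSpace.toDual_symm_apply]
  have h1 := ((hK.image (toWeakSpaceCLM ℝ E).continuous).prod
    ((WeakDual.isCompact_closedBall (0 : StrongDual ℝ H) r).image hΦ)).image continuous_add
  refine h1.closure_of_subset ?_
  rintro _ ⟨_, ⟨x, hx, rfl⟩, rfl⟩
  refine ⟨(toWeakSpace ℝ E (C x), toWeakSpace ℝ E (J (A x))), ⟨⟨C x, hKS ⟨x, hx, rfl⟩, rfl⟩,
    ⟨StrongDual.toWeakDual (InnerProductSpace.toDual ℝ H (A x)), ?_, ?_⟩⟩, rfl⟩
  · have := hr ⟨x, hx, rfl⟩
    change InnerProductSpace.toDual ℝ H (A x) ∈ Metric.closedBall 0 r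
    simpa using this
  · change toWeakSpace ℝ E (J ((InnerProductSpace.toDual ℝ H).symm
      (InnerProductSpace.toDual ℝ H (A x)))) = _
    simp

end

abbrev X : Type := ℕ → Bool
abbrev Ω : Type := ℕ ⊕ X

noncomputable def P : Measure X :=
  Measure.infinitePi fun _ : ℕ => (PMF.uniformOfFintype Bool).toMeasure

instance : IsProbabilityMeasure P := by unfold P; infer_instance

noncomputable def ν : Measure Ω := Measure.count.map Sum.inl + P.map Sum.inr

theorem emb_l : MeasurableEmbedding (Sum.inl : ℕ → Ω) :=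
  ⟨Sum.inl_injective, measurable_inl, fun _ h => h.inl_image⟩
theorem emb_r : MeasurableEmbedding (Sum.inr : X → Ω) :=
  ⟨Sum.inr_injective, measurable_inr, fun _ h => h.inr_image⟩

theorem ae_iff' {p : Ω → Prop} :
    (∀ᵐ ω ∂ν, p ω) ↔ (∀ n, p (Sum.inl n)) ∧ ∀ᵐ x ∂P, p (Sum.inr x) := by
  rw [ν, ae_add_measure_iff, emb_l.ae_map_iff, emb_r.ae_map_iff, Measure.ae_count_iff]

theorem ν_r (A : Set X) : ν (Sum.inr '' A) = P A := by
  rw [ν, Measure.add_apply, emb_l.map_apply, emb_r.map_apply, Sum.inr_injective.preimage_image]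
  simp

theorem ν_l (k : ℕ) : ν {Sum.inl k} = 1 := by
  rw [ν, Measure.add_apply, emb_l.map_apply, emb_r.map_apply, ← image_singleton,
    Sum.inl_injective.preimage_image, preimage_inr_image_inl]
  simp

theorem ms (k : ℕ) : MeasurableSet ({Sum.inl k} : Set Ω) := by
  rw [← image_singleton]; exact (measurableSet_singleton k).inl_image

abbrev E : Type := Lp ℝ 1 ν
abbrev H : Type := Lp ℝ 2 ν

theorem add_l (φ ψ : E) (n : ℕ) : (φ + ψ) (.inl n) = φ (.inl n) + ψ (.inl n) :=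
  (ae_iff'.1 (Lp.coeFn_add _ _)).1 n
theorem smul_l (r : ℝ) (φ : E) (n : ℕ) : (r • φ) (.inl n) = r * φ (.inl n) :=
  (ae_iff'.1 (Lp.coeFn_smul _ _)).1 n

def mm (m : ℕ → ℝ) (c : ℝ) : Ω → ℝ := Sum.elim m fun _ => c

theorem mm_meas (m : ℕ → ℝ) (c : ℝ) : Measurable (mm m c) :=
  Measurable.of_discrete.sumElim measurable_const

theorem mm_le {m : ℕ → ℝ} {c C : ℝ} (h : ∀ n, |m n| ≤ C) (hc : |c| ≤ C) (ω : Ω) :
    |mm m c ω| ≤ C := by
  cases ω with
  | inl n => exact h n
  | inr x => exact hc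

open Classical in
noncomputable def M (m : ℕ → ℝ) (c : ℝ) : E →L[ℝ] E :=
  if h : MemLp (mm m c) ∞ ν then (ContinuousLinearMap.mul ℝ ℝ).holderL ν ∞ 1 1 h.toLp else 0

theorem M_ae {m : ℕ → ℝ} {C : ℝ} (h : ∀ n, |m n| ≤ C) (c : ℝ) (φ : E) :
    ∀ᵐ ω ∂ν, M m c φ ω = mm m c ω * φ ω := by
  have hm : MemLp (mm m c) ∞ ν :=
    memLp_top_of_bound (mm_meas m c).aestronglyMeasurable (max C |c|)
      (Eventually.of_forall (mm_le (fun n => (h n).trans (le_max_left _ _)) (le_max_right _ _)))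
  rw [M, dif_pos hm]
  filter_upwards [(ContinuousLinearMap.mul ℝ ℝ).coeFn_holder (r := 1) hm.toLp φ, hm.coeFn_toLp]
    with ω h1 h2
  simp only [h2] at h1
  exact h1

theorem M_l {m : ℕ → ℝ} {C : ℝ} (h : ∀ n, |m n| ≤ C) (c : ℝ) (φ : E) (n : ℕ) :
    M m c φ (.inl n) = m n * φ (.inl n) := (ae_iff'.1 (M_ae h c φ)).1 n

theorem M_r {m : ℕ → ℝ} {C : ℝ} (h : ∀ n, |m n| ≤ C) (c : ℝ) (φ : E) :
    ∀ᵐ x ∂P, M m c φ (.inr x) = c * φ (.inr x) := (ae_iff'.1 (M_ae h c φ)).2

theorem norm_M {m : ℕ → ℝ} {c C : ℝ} (h : ∀ n, |m n| ≤ C) (hc : |c| ≤ C) : ‖M m c‖ ≤ C :=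
  (M m c).opNorm_le_bound ((abs_nonneg _).trans hc) fun φ =>
    Lp.norm_le_mul_norm_of_ae_le_mul (by
      filter_upwards [M_ae h c φ] with ω hω
      rw [hω, norm_mul]; gcongr; exact mm_le h hc ω)

theorem z0 : ∀ n : ℕ, |(0 : ℕ → ℝ) n| ≤ 0 := fun _ => by simp

noncomputable def Q : E →L[ℝ] E := M 0 1

theorem QM {m : ℕ → ℝ} {C : ℝ} (h : ∀ n, |m n| ≤ C) (c : ℝ) (φ : E) :
    Q (M m c φ) = c • Q φ := by
  refine Lp.ext (ae_iff'.2 ⟨fun n => ?_, ?_⟩)
  · rw [smul_l, Q, M_l z0, M_l z0]; simp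
  · filter_upwards [M_r z0 1 (M m c φ), M_r z0 1 φ, M_r h c φ,
      (ae_iff'.1 (Lp.coeFn_smul c (Q φ))).2] with x h1 h2 h3 h4
    rw [h4, Q, h1, h3, Pi.smul_apply, h2]; simp

noncomputable def e (k : ℕ) : E :=
  indicatorConstLp 1 (ms k) (by simp [ν_l]) (1 : ℝ)

open Classical in
theorem e_ae (k : ℕ) : ∀ᵐ ω ∂ν, e k ω = if ω = .inl k then 1 else 0 := by
  filter_upwards [indicatorConstLp_coeFn (p := 1) (μ := ν)
    (hs := ms k) (hμs := by simp [ν_l]) (c := (1 : ℝ))] with ω h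
  rw [e, h, indicator_apply]
  simp

theorem norm_e (k : ℕ) : ‖e k‖ = 1 := by
  rw [e, norm_indicatorConstLp (by simp) (by simp)]
  simp [Measure.real, ν_l]

theorem abs_le_norm (φ : E) (k : ℕ) : |φ (.inl k)| ≤ ‖φ‖ := by
  have : ‖φ (.inl k) • e k‖ ≤ ‖φ‖ := Lp.norm_le_norm_of_ae_le (by
    filter_upwards [Lp.coeFn_smul (φ (.inl k)) (e k), e_ae k] with ω h1 h2
    rw [h1, Pi.smul_apply, h2]
    split_ifs with h
    · simp [h]
    · simp)
  rwa [norm_smul, norm_e, mul_one] at this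

noncomputable def ev (k : ℕ) : E →L[ℝ] ℝ :=
  LinearMap.mkContinuous
    { toFun := fun φ => φ (.inl k)
      map_add' := fun φ ψ => add_l φ ψ k
      map_smul' := fun r φ => smul_l r φ k } 1 fun φ => by simpa using abs_le_norm φ k

theorem ev_ap (k : ℕ) (φ : E) : ev k φ = φ (.inl k) := rfl

theorem ext2 {φ ψ : E} (h : ∀ n, ev n φ = ev n ψ) (hQ : Q φ = Q ψ) : φ = ψ := by
  refine Lp.ext (ae_iff'.2 ⟨h, ?_⟩)
  filter_upwards [M_r z0 1 φ, M_r z0 1 ψ] with x h1 h2
  rw [Q] at hQ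
  rw [hQ, h2] at h1
  linarith

theorem evM {m : ℕ → ℝ} {C : ℝ} (h : ∀ n, |m n| ≤ C) (c : ℝ) (φ : E) (n : ℕ) :
    ev n (M m c φ) = m n * ev n φ := M_l h c φ n

theorem ev_e (k n : ℕ) : ev n (e k) = if n = k then 1 else 0 := by
  rw [ev_ap, (ae_iff'.1 (e_ae k)).1 n]; simp

theorem Q_e (k : ℕ) : Q (e k) = 0 := by
  refine Lp.ext (ae_iff'.2 ⟨fun n => ?_, ?_⟩)
  · rw [Q, M_l z0, (ae_iff'.1 (Lp.coeFn_zero ℝ 1 ν)).1 n]; simp
  · filter_upwards [M_r z0 1 (e k), (ae_iff'.1 (e_ae k)).2,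
      (ae_iff'.1 (Lp.coeFn_zero ℝ 1 ν)).2] with x h1 h2 h3
    rw [Q, h1, h2, h3]; simp

noncomputable def ind (p : ℝ≥0∞) {A : Set X} (hA : MeasurableSet A) : Lp ℝ p ν :=
  indicatorConstLp p hA.inr_image (by simp [ν_r]) (1 : ℝ)

theorem ind_ae (p : ℝ≥0∞) {A : Set X} (hA : MeasurableSet A) :
    ∀ᵐ ω ∂ν, ind p hA ω = (Sum.inr '' A : Set Ω).indicator (fun _ => (1 : ℝ)) ω :=
  indicatorConstLp_coeFn

def A (k : ℕ) : Set X := {x | x k = true}

theorem A_meas (k : ℕ) : MeasurableSet (A k) :=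
  measurableSet_eq_fun (measurable_pi_apply k) measurable_const

theorem P_A {k j : ℕ} (h : k ≠ j) : P (A k \ A j) = 1 / 4 := by
  have : A k \ A j = Set.pi ({k, j} : Finset ℕ) fun i => {decide (i = k)} := by
    ext x; simp [A, h.symm]
  rw [this, P, Measure.infinitePi_pi _ fun _ _ => measurableSet_singleton _, Finset.prod_pair h,
    PMF.toMeasure_apply_singleton _ _ (measurableSet_singleton _),
    PMF.toMeasure_apply_singleton _ _ (measurableSet_singleton _)]
  simp only [PMF.uniformOfFintype_apply, Fintype.card_bool, one_div]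
  rw [← ENNReal.mul_inv (by simp) (by simp)]
  norm_num

noncomputable def g (ω : Ω) : H := ind 2 (A_meas (Sum.elim id (fun _ => 0) ω))

theorem g_mem : MemLp g ∞ ν := by
  refine memLp_top_of_bound (StronglyMeasurable.aestronglyMeasurable ?_)
    ‖ind 2 MeasurableSet.univ‖ (Eventually.of_forall fun ω => Lp.norm_le_norm_of_ae_le ?_)
  · exact (StronglyMeasurable.of_discrete (f := fun k : ℕ => ind 2 (A_meas k))).comp_measurable
      (measurable_id.sumElim measurable_const)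
  · filter_upwards [ind_ae 2 MeasurableSet.univ, ind_ae 2 (A_meas (Sum.elim id (fun _ => 0) ω))]
      with ω' h1 h2
    rw [g, h1, h2]
    exact norm_indicator_le_of_subset (image_mono (subset_univ _)) _ _

noncomputable def F₂ : E →L[ℝ] H :=
  ((ContinuousLinearMap.lsmul ℝ ℝ : ℝ →L[ℝ] H →L[ℝ] H).lpPairing ν 1 ∞).flip g_mem.toLp

theorem F₂_ap (φ : E) : F₂ φ = ∫ ω, φ ω • g ω ∂ν := by
  rw [F₂, ContinuousLinearMap.flip_apply, ContinuousLinearMap.lpPairing_eq_integral]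
  refine integral_congr_ae ?_
  filter_upwards [g_mem.coeFn_toLp] with ω h
  rw [h]; rfl

noncomputable def J : H →L[ℝ] E :=
  (ContinuousLinearMap.mul ℝ ℝ).holderL ν 2 2 1 (ind 2 MeasurableSet.univ)

theorem J_ae (h : H) : ∀ᵐ ω ∂ν, J h ω = mm 0 1 ω * h ω := by
  filter_upwards [(ContinuousLinearMap.mul ℝ ℝ).coeFn_holder (r := 1) (ind 2 MeasurableSet.univ) h,
    ind_ae 2 MeasurableSet.univ] with ω h1 h2
  simp only [h2] at h1
  refine h1.trans ?_
  cases ω <;> simp [mm]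

noncomputable def F : E →L[ℝ] E := J ∘L F₂

theorem ev_F (φ : E) (n : ℕ) : ev n (F φ) = 0 := by
  refine ((ae_iff'.1 (J_ae (F₂ φ))).1 n).trans ?_
  simp [mm]

theorem smul_mono {p : ℝ≥0∞} {r : ℝ} {φ : Lp ℝ p ν} (hr : 0 ≤ r) (h : 0 ≤ φ) : 0 ≤ r • φ := by
  rw [← Lp.coeFn_nonneg] at *
  filter_upwards [h, Lp.coeFn_smul r φ] with ω h1 h2
  rw [h2]; exact mul_nonneg hr h1

theorem F_pos {φ : E} (h : 0 ≤ φ) : 0 ≤ F φ := by
  have : IsOrderedModule ℝ H :=
    { smul_le_smul_of_nonneg_left := fun r hr a b hab => by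
        rw [← sub_nonneg, ← smul_sub]; exact smul_mono hr (sub_nonneg.2 hab)
      smul_le_smul_of_nonneg_right := fun a ha r s hrs => by
        rw [← sub_nonneg, ← sub_smul]; exact smul_mono (sub_nonneg.2 hrs) ha }
  have h1 : 0 ≤ F₂ φ := by
    rw [F₂_ap]
    refine integral_nonneg_of_ae ?_
    filter_upwards [(Lp.coeFn_nonneg φ).2 h] with ω hω
    refine smul_mono hω ?_
    rw [← Lp.coeFn_nonneg]
    filter_upwards [ind_ae 2 (A_meas (Sum.elim id (fun _ => 0) ω))] with ω' h2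
    rw [g, h2]
    exact indicator_nonneg (fun _ _ => zero_le_one) _
  rw [← Lp.coeFn_nonneg] at *
  filter_upwards [h1, J_ae (F₂ φ)] with ω h2 h3
  refine le_of_le_of_eq (mul_nonneg ?_ h2) h3.symm
  cases ω <;> simp [mm]

theorem F_e (k : ℕ) : F (e k) = J (ind 2 (A_meas k)) := by
  rw [F, ContinuousLinearMap.comp_apply, F₂_ap]
  congr 1
  rw [integral_congr_ae (g := ({Sum.inl k} : Set Ω).indicator fun _ => ind 2 (A_meas k)),
    integral_indicator_const _ (ms k)]
  · simp [Measure.real, ν_l]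
  · filter_upwards [e_ae k] with ω h
    rw [h]
    split_ifs with h1
    · simp [h1, g]
    · simp [h1]

theorem F_sep {k j : ℕ} (h : k ≠ j) : 1 / 4 ≤ ‖F (e k) - F (e j)‖ := by
  have h1 : ‖ind 1 ((A_meas k).diff (A_meas j))‖ = 1 / 4 := by
    rw [ind, norm_indicatorConstLp (by simp) (by simp)]
    simp [Measure.real, ν_r, P_A h]
  rw [← h1, F_e, F_e]
  refine Lp.norm_le_norm_of_ae_le ?_
  filter_upwards [ind_ae 1 ((A_meas k).diff (A_meas j)), ind_ae 2 (A_meas k), ind_ae 2 (A_meas j),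
    J_ae (ind 2 (A_meas k)), J_ae (ind 2 (A_meas j)),
    Lp.coeFn_sub (J (ind 2 (A_meas k))) (J (ind 2 (A_meas j)))] with ω h2 h3 h4 h5 h6 h7
  rw [h7, Pi.sub_apply, h2, h5, h6, h3, h4]
  by_cases hω : ω ∈ (Sum.inr '' (A k \ A j) : Set Ω)
  · obtain ⟨x, hx, rfl⟩ := hω
    simp [mm, hx.1, hx.2]
  · rw [indicator_of_notMem hω]; simp

theorem F_not : ¬ IsCompactOperator (F ∘L M 1 0) := by
  intro h
  obtain ⟨K, hK, hKS⟩ := IsCompactOperator.image_closedBall_subset_compact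
    (f := ((F ∘L M 1 0 : E →L[ℝ] E) : E →ₗ[ℝ] E)) h 1
  have h1 : ∀ k, M 1 0 (e k) = e k := fun k =>
    ext2 (fun n => by rw [evM (C := 1) (by simp)]; simp) (by rw [QM (C := 1) (by simp), Q_e]; simp)
  obtain ⟨a, -, s, hs, ha⟩ := hK.tendsto_subseq (x := fun k => F (e k)) fun k =>
    hKS ⟨e k, by simp [norm_e], by simp [h1]⟩
  have h2 := (ha.sub (ha.comp (tendsto_add_atTop_nat 1))).norm
  rw [sub_self, norm_zero] at h2
  have h3 := ge_of_tendsto' h2 fun k => F_sep (hs (Nat.lt_succ_self k)).ne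
  norm_num at h3

theorem Q_pos {φ : E} {m : ℕ → ℝ} {c C : ℝ} (h : ∀ n, |m n| ≤ C) (h0 : ∀ n, 0 ≤ m n) (hc : 0 ≤ c)
    (hφ : 0 ≤ φ) : 0 ≤ M m c φ := by
  rw [← Lp.coeFn_nonneg] at *
  filter_upwards [hφ, M_ae h c φ] with ω h1 h2
  refine le_of_le_of_eq (mul_nonneg ?_ h1) h2.symm
  cases ω with
  | inl n => exact h0 n
  | inr x => exact hc

theorem cont_of {m : ℝ → ℕ → ℝ} {S : Set ℝ} (hc : ∀ n, Continuous (fun t => m t n))
    (hb : ∀ t ∈ S, ∀ n, |m t n| ≤ 1) {c : ℝ} (h1 : |c| ≤ 1) (χ : E) :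
    ContinuousOn (fun t => M (m t) c χ) S := by
  intro t ht
  rw [ContinuousWithinAt, tendsto_iff_norm_sub_tendsto_zero]
  have := tendsto_integral_filter_of_dominated_convergence (μ := ν)
    (l := 𝓝[S] t) (F := fun s ω => ‖(mm (m s) c ω - mm (m t) c ω) * χ ω‖) (f := fun _ => 0)
    (fun ω => 2 * ‖χ ω‖)
    (Eventually.of_forall fun _ => (((mm_meas _ _).sub (mm_meas _ _)).aestronglyMeasurable.mul
      (Lp.aestronglyMeasurable χ)).norm) ?_
    ((L1.integrable_coeFn χ).norm.const_mul 2) ?_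
  · simp only [integral_zero] at this
    refine this.congr' ?_
    filter_upwards [self_mem_nhdsWithin] with s hs
    rw [L1.norm_eq_integral_norm]
    refine integral_congr_ae ?_
    filter_upwards [Lp.coeFn_sub (M (m s) c χ) (M (m t) c χ), M_ae (hb s hs) c χ,
      M_ae (hb t ht) c χ] with ω a1 a2 a3
    rw [a1, Pi.sub_apply, a2, a3, sub_mul]
  · filter_upwards [self_mem_nhdsWithin] with s hs
    refine Eventually.of_forall fun ω => ?_
    rw [norm_norm, norm_mul]
    gcongr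
    exact (norm_sub_le _ _).trans (by
      rw [Real.norm_eq_abs, Real.norm_eq_abs]
      linarith [mm_le (hb s hs) h1 ω, mm_le (hb t ht) h1 ω])
  · refine Eventually.of_forall fun ω => ?_
    have h1 : Continuous (fun s => ‖(mm (m s) c ω - mm (m t) c ω) * χ ω‖) := by
      have : Continuous fun s => mm (m s) c ω := by
        cases ω with
        | inl n => exact hc n
        | inr x => exact continuous_const
      fun_prop
    have h2 := (h1.tendsto t).mono_left (nhdsWithin_le_nhds (s := S))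
    simpa using h2

theorem int_M {m : ℝ → ℕ → ℝ} {t : ℝ} (ht : 0 ≤ t) (hc : ∀ n, Continuous (fun s => m s n))
    (hb : ∀ s ∈ Icc 0 t, ∀ n, |m s n| ≤ 1) (χ : E) {ξ : E} (hQ : Q ξ = 0)
    (hξ : ∀ n, ev n ξ = (∫ s in (0 : ℝ)..t, m s n) * ev n χ) :
    ∫ s in (0 : ℝ)..t, M (m s) 0 χ = ξ := by
  have hi := (cont_of hc hb (c := 0) (by simp) χ).intervalIntegrable_of_Icc (μ := volume) ht
  refine ext2 (fun n => ?_) ?_
  · rw [← (ev n).intervalIntegral_comp_comm hi, hξ, ← intervalIntegral.integral_mul_const]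
    refine intervalIntegral.integral_congr fun s hs => ?_
    rw [uIcc_of_le ht] at hs
    exact evM (hb s hs) 0 χ n
  · rw [← Q.intervalIntegral_comp_comm hi, hQ, intervalIntegral.integral_congr (g := fun _ => 0)]
    · simp
    · intro s hs
      rw [uIcc_of_le ht] at hs
      simp only [QM (hb s hs), zero_smul]

theorem compact_M {m : ℕ → ℝ} (hm : Tendsto m atTop (𝓝 0)) : IsCompactOperator (M m 0) := by
  obtain ⟨C, hC⟩ := hm.abs.bddAbove_range
  have hC : ∀ n, |m n| ≤ C := fun n => hC ⟨n, rfl⟩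
  let G : ℕ → E →L[ℝ] E := fun N => ∑ k ∈ Finset.range N, (ev k).smulRight (m k • e k)
  refine isCompactOperator_of_tendsto (l := atTop) (F := G) ?_ (Eventually.of_forall fun N => ?_)
  · rw [Metric.tendsto_atTop] at hm ⊢
    intro ε hε
    obtain ⟨N, hN⟩ := hm (ε / 2) (by positivity)
    refine ⟨N, fun n hn => ?_⟩
    have hb : ∀ k, |(fun k => if k < n then 0 else -m k) k| ≤ ε / 2 := fun k => by
      dsimp only
      split_ifs with h
      · simp; positivity
      · have := hN k (by omega)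
        rw [Real.dist_eq, sub_zero] at this
        rw [abs_neg]; exact this.le
    have : G n - M m 0 = M (fun k => if k < n then 0 else -m k) 0 := by
      ext1 φ
      refine ext2 (fun k => ?_) ?_
      · rw [evM hb, sub_apply, map_sub, evM hC]
        simp only [G, sum_apply, ContinuousLinearMap.smulRight_apply, map_sum,
          map_smul, ev_e, smul_eq_mul, mul_ite, mul_one, mul_zero, Finset.sum_ite_eq,
          Finset.mem_range]
        split_ifs <;> ring
      · rw [QM hb, sub_apply, map_sub, QM hC]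
        simp [G, Q_e]
    rw [dist_eq_norm, this]
    exact (norm_M hb (by simp; positivity)).trans_lt (by linarith)
  · induction N with
    | zero => simpa [G] using isCompactOperator_zero
    | succ N ih =>
      simp only [G, Finset.sum_range_succ, FunLike.coe_add]
      refine ih.add ?_
      exact (isCompactOperator_of_locallyCompactSpace_dom (ev N)).clm_comp
        (ContinuousLinearMap.toSpanSingleton ℝ (m N • e N))

noncomputable def u (j : ℕ) (t : ℝ) (n : ℕ) : ℝ :=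
  (n * t) ^ j / (Nat.factorial j : ℝ) * Real.exp (-(n * t))

noncomputable def y (j : ℕ) (t : ℝ) (n : ℕ) : ℝ := 1 - ∑ i ∈ Finset.range j, u i t n

theorem u_nonneg (j : ℕ) {t : ℝ} (ht : 0 ≤ t) (n : ℕ) : 0 ≤ u j t n := by
  unfold u; positivity

theorem u_le (j : ℕ) {t : ℝ} (ht : 0 ≤ t) (n : ℕ) : |u j t n| ≤ 1 := by
  rw [abs_of_nonneg (u_nonneg j ht n), u, Real.exp_neg, ← div_eq_mul_inv,
    div_le_one (Real.exp_pos _)]
  exact Real.pow_div_factorial_le_exp _ (by positivity) j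

theorem y_le (j : ℕ) {t : ℝ} (ht : 0 ≤ t) (n : ℕ) : |y j t n| ≤ 1 := by
  have h1 : 0 ≤ ∑ i ∈ Finset.range j, u i t n := Finset.sum_nonneg fun i _ => u_nonneg i ht n
  have h2 : ∑ i ∈ Finset.range j, u i t n ≤ 1 := by
    simp only [u]
    rw [← Finset.sum_mul, Real.exp_neg, ← div_eq_mul_inv, div_le_one (Real.exp_pos _)]
    exact Real.sum_le_exp_of_nonneg (by positivity) j
  rw [y, abs_le]; constructor <;> linarith

theorem u_cont (j n : ℕ) : Continuous (fun t => u j t n) := by unfold u; fun_prop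
theorem y_cont (j n : ℕ) : Continuous (fun t => y j t n) :=
  continuous_const.sub (continuous_finsetSum _ fun i _ => u_cont i n)

theorem u_zero (t : ℝ) (n : ℕ) : u 0 t n = Real.exp (-(n * t)) := by simp [u]

theorem u_lim (j : ℕ) {t : ℝ} (ht : 0 < t) : Tendsto (u j t) atTop (𝓝 0) := by
  have := ((Real.tendsto_pow_mul_exp_neg_atTop_nhds_zero j).comp
    (tendsto_natCast_atTop_atTop.atTop_mul_const ht)).div_const (Nat.factorial j : ℝ)
  rw [zero_div] at this
  refine this.congr fun n => ?_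
  simp only [Function.comp, u]; ring

theorem int_u (j n : ℕ) (t : ℝ) :
    (∫ s in (0 : ℝ)..t, u j (t - s) n * u 0 s n) * n = u (j + 1) t n := by
  rw [intervalIntegral.integral_congr (g := fun s => (t - s) ^ j *
    (n ^ j / (Nat.factorial j : ℝ) * Real.exp (-(n * t))))]
  · rw [intervalIntegral.integral_mul_const, intervalIntegral.integral_comp_sub_left
      (fun x => x ^ j), integral_pow, u, Nat.factorial_succ]
    push_cast
    simp only [sub_self, sub_zero, ne_eq, Nat.add_eq_zero_iff, one_ne_zero, and_false,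
      not_false_eq_true, zero_pow]
    field_simp
    ring
  · intro s _
    simp only
    rw [u_zero, u, show -(n * t) = -(n * (t - s)) + -(n * s) by ring, Real.exp_add, mul_pow]
    ring

theorem int_u0 (n : ℕ) (t : ℝ) : (∫ s in (0 : ℝ)..t, u 0 s n) * n = 1 - u 0 t n := by
  rw [← intervalIntegral.integral_mul_const,
    intervalIntegral.integral_eq_sub_of_hasDerivAt (f := fun s => -Real.exp (-(n * s)))]
  · simp [u_zero]; ring
  · intro s _
    have := (((hasDerivAt_id s).const_mul (n : ℝ)).neg.exp).neg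
    refine HasDerivAt.congr_deriv (f := fun s : ℝ => -Real.exp (-(n * s))) this ?_
    simp [u_zero]
  · exact ((u_cont 0 n).mul continuous_const).intervalIntegrable _ _

theorem int_y (j n : ℕ) (t : ℝ) :
    (∫ s in (0 : ℝ)..t, y j (t - s) n * u 0 s n) * n =
      1 - u 0 t n - ∑ i ∈ Finset.range j, u (i + 1) t n := by
  have hc : ∀ i, Continuous fun s => u i (t - s) n * u 0 s n := fun i =>
    ((u_cont i n).comp (continuous_const.sub continuous_id)).mul (u_cont 0 n)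
  simp only [y, sub_mul, one_mul, Finset.sum_mul]
  rw [intervalIntegral.integral_sub ((u_cont 0 n).intervalIntegrable _ _)
    ((continuous_finsetSum _ fun i _ => hc i).intervalIntegrable _ _),
    intervalIntegral.integral_finsetSum fun i _ => (hc i).intervalIntegrable _ _, sub_mul,
    int_u0, Finset.sum_mul]
  simp only [int_u]

noncomputable def c : ℝ := 1 / (2 * (1 + ‖F‖))

theorem c_pos : 0 < c := by unfold c; positivity

noncomputable def W : ℕ → ℝ → E →L[ℝ] E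
  | 0, t => M (u 0 t) 1
  | j + 1, t => c ^ (j + 1) • (M (u (j + 1) t) 0 + F ∘L M (y (j + 1) t) 0)

theorem gen_ev {φ ψ : E} (h : Gen (W 0) φ ψ) (n : ℕ) : ev n ψ = -(n * ev n φ) := by
  have h1 := ((ev n).continuous.tendsto ψ).comp h
  have h2 : HasDerivAt (fun t : ℝ => Real.exp (-(n * t)) * ev n φ) (-(n * ev n φ)) 0 := by
    have := (((hasDerivAt_id (0 : ℝ)).const_mul (n : ℝ)).neg.exp).mul_const (ev n φ)
    refine HasDerivAt.congr_deriv (f := fun t : ℝ => Real.exp (-(n * t)) * ev n φ) this ?_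
    simp
  refine tendsto_nhds_unique (h1.congr' ?_) h2.tendsto_slope_zero_right
  filter_upwards [self_mem_nhdsWithin] with t ht
  simp only [Function.comp, W]
  rw [map_smul, map_sub, evM (u_le 0 (le_of_lt ht)), u_zero]
  simp

theorem gen_Q {φ ψ : E} (h : Gen (W 0) φ ψ) : Q ψ = 0 := by
  have h1 := (Q.continuous.tendsto ψ).comp h
  refine tendsto_nhds_unique h1 (tendsto_const_nhds.congr' ?_)
  filter_upwards [self_mem_nhdsWithin] with t ht
  simp only [Function.comp, W]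
  rw [map_smul, map_sub, QM (u_le 0 (le_of_lt ht))]
  simp

open Classical in
noncomputable def S (φ : E) : E :=
  if h : ∃ χ, Q χ = 0 ∧ ∀ n, ev n χ = n * ev n φ then h.choose else 0

theorem S_of {φ χ : E} (hQ : Q χ = 0) (h : ∀ n : ℕ, ev n χ = n * ev n φ) : S φ = χ := by
  have hm : ∃ χ, Q χ = 0 ∧ ∀ n, ev n χ = n * ev n φ := ⟨χ, hQ, h⟩
  rw [S, dif_pos hm]
  exact ext2 (fun n => (hm.choose_spec.2 n).trans (h n).symm) (hm.choose_spec.1.trans hQ.symm)

theorem S_gen {φ ψ : E} (h : Gen (W 0) φ ψ) : S φ = -ψ :=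
  S_of (by rw [map_neg, gen_Q h, neg_zero]) fun n => by rw [map_neg, gen_ev h, neg_neg]

noncomputable def L : E →L[ℝ] E := c • (1 + F)

noncomputable def B (φ : E) : E := L (S φ)

theorem norm_L : ‖L‖ ≤ 1 / 2 := by
  have h1 : ‖(1 : E →L[ℝ] E) + F‖ ≤ 1 + ‖F‖ :=
    (norm_add_le _ _).trans (by gcongr; exact ContinuousLinearMap.norm_id_le)
  rw [L, norm_smul, Real.norm_of_nonneg c_pos.le]
  refine (mul_le_mul_of_nonneg_left h1 c_pos.le).trans (le_of_eq ?_)
  unfold c; field_simp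

theorem result : ∃ (Ω : Type) (_ : MeasurableSpace Ω) (ν : Measure Ω),
    Counterexample (Lp ℝ 1 ν) := by
  refine ⟨Ω, inferInstance, ν, W 0, B, W, ⟨?_, ?_, ?_, ?_⟩, ⟨?_, ⟨0, 1 / 2, ?_⟩, ?_,
    ⟨1, ?_⟩⟩, ⟨rfl, ?_⟩, fun t ht => ?_, fun t ht hc => ?_, fun hc => ?_⟩
  · ext1 φ
    exact ext2 (fun n => by rw [W, evM (u_le 0 le_rfl), u_zero]; simp)
      (by rw [W, QM (u_le 0 le_rfl)]; simp)
  · intro s t hs ht
    ext1 φ
    refine ext2 (fun n => ?_) ?_
    · simp only [W]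
      rw [mul_apply_eq_comp, evM (u_le 0 (by positivity)), evM (u_le 0 hs), evM (u_le 0 ht),
        u_zero, u_zero, u_zero, ← mul_assoc, ← Real.exp_add]
      congr 2; ring
    · simp only [W]
      rw [mul_apply_eq_comp, QM (u_le 0 (by positivity)), QM (u_le 0 hs), QM (u_le 0 ht)]
      simp
  · exact fun φ => cont_of (u_cont 0) (fun t ht => u_le 0 ht) (by simp) φ
  · exact fun t ht => ⟨norm_M (u_le 0 ht) (by simp), fun φ hφ =>
      Q_pos (u_le 0 ht) (u_nonneg 0 ht) zero_le_one hφ⟩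
  · intro φ ψ φ' ψ' r h h'
    rw [B, B, B, ← map_smul, ← map_add, S_gen h, S_gen h', S_of (χ := r • -ψ + -ψ')]
    · simp [gen_Q h, gen_Q h']
    · intro n
      simp only [map_add, map_smul, map_neg, gen_ev h, gen_ev h', smul_eq_mul]
      ring
  · intro φ ψ h
    rw [B, S_gen h, zero_mul, zero_add, ← norm_neg ψ]
    exact L.le_of_opNorm_le norm_L _
  · intro φ ψ h hφ
    have h1 : 0 ≤ -ψ := by
      rw [← Lp.coeFn_nonneg] at *
      refine ae_iff'.2 ⟨fun n => ?_, ?_⟩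
      · have := mul_nonneg (Nat.cast_nonneg n : (0 : ℝ) ≤ n) ((ae_iff'.1 hφ).1 n)
        change 0 ≤ ev n (-ψ)
        rwa [map_neg, gen_ev h, neg_neg]
      · filter_upwards [M_r z0 1 (-ψ), (ae_iff'.1 (Lp.coeFn_zero ℝ 1 ν)).2] with x h2 h3
        rw [← Q, map_neg, gen_Q h, neg_zero, h3, one_mul] at h2
        exact h2.le
    rw [B, S_gen h]
    exact smul_mono c_pos.le (add_nonneg h1 (F_pos h1))
  · intro l hl
    have hb : ∀ n : ℕ, |(n : ℝ) / (l + n)| ≤ 1 := fun n => by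
      have : (0 : ℝ) ≤ n := Nat.cast_nonneg n
      rw [abs_of_nonneg (by positivity), div_le_iff₀ (by positivity)]
      linarith
    refine ⟨L ∘L M (fun n => n / (l + n)) 0, ?_, fun φ ψ h => ?_⟩
    · refine (ContinuousLinearMap.opNorm_comp_le _ _).trans_lt ?_
      have := mul_le_mul norm_L (norm_M hb (c := 0) (by simp)) (norm_nonneg _) (by norm_num)
      linarith
    · rw [B, ContinuousLinearMap.comp_apply]
      congr 1
      refine (S_of (by rw [QM hb, zero_smul]) fun n => ?_).symm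
      have : (0 : ℝ) ≤ n := Nat.cast_nonneg n
      rw [evM hb, map_sub, map_smul, gen_ev h, smul_eq_mul]
      field_simp
      ring
  · intro j t ht φ ψ h
    have hχ : ∀ n, ev n (-ψ) = n * ev n φ := fun n => by rw [map_neg, gen_ev h, neg_neg]
    have hS : ∀ s, 0 ≤ s → S (W 0 s φ) = M (u 0 s) 0 (-ψ) := fun s hs =>
      S_of (by rw [QM (u_le 0 hs), zero_smul]) fun n => by
        rw [W, evM (u_le 0 hs), evM (u_le 0 hs), hχ]; ring
    have ha : ∀ s ∈ Icc 0 t, ∀ n, |u j (t - s) n * u 0 s n| ≤ 1 := fun s hs n => by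
      rw [abs_mul]
      exact mul_le_one₀ (u_le j (by linarith [hs.2]) n) (abs_nonneg _) (u_le 0 hs.1 n)
    have hb : ∀ s ∈ Icc 0 t, ∀ n, |y j (t - s) n * u 0 s n| ≤ 1 := fun s hs n => by
      rw [abs_mul]
      exact mul_le_one₀ (y_le j (by linarith [hs.2]) n) (abs_nonneg _) (u_le 0 hs.1 n)
    have ca : ∀ n, Continuous fun s => u j (t - s) n * u 0 s n := fun n =>
      ((u_cont j n).comp (continuous_const.sub continuous_id)).mul (u_cont 0 n)
    have cb : ∀ n, Continuous fun s => y j (t - s) n * u 0 s n := fun n =>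
      ((y_cont j n).comp (continuous_const.sub continuous_id)).mul (u_cont 0 n)
    have MM : ∀ {m m' : ℕ → ℝ} (d : ℝ), (∀ n, |m n| ≤ 1) → (∀ n, |m' n| ≤ 1) →
        (∀ n, |m n * m' n| ≤ 1) → M m d (M m' 0 (-ψ)) = M (fun n => m n * m' n) 0 (-ψ) :=
      fun d h1 h2 h3 => ext2 (fun n => by rw [evM h1, evM h2, evM h3, mul_assoc])
        (by rw [QM h1, QM h2, QM h3]; simp)
    have MF : ∀ {m : ℕ → ℝ} (d : ℝ) (ξ : E), (∀ n, |m n| ≤ 1) → M m d (F ξ) = d • F ξ :=
      fun d ξ h1 => ext2 (fun n => by rw [evM h1, map_smul, ev_F]; simp) (by rw [QM h1, map_smul])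
    have hF : ∀ s ∈ Icc 0 t, W j (t - s) (B (W 0 s φ)) = c ^ (j + 1) •
        (M (fun n => u j (t - s) n * u 0 s n) 0 (-ψ) +
          F (M (fun n => y j (t - s) n * u 0 s n) 0 (-ψ))) := by
      intro s hs
      have hts : 0 ≤ t - s := by linarith [hs.2]
      rw [B, hS s hs.1, ← MM 0 (y_le j hts) (u_le 0 hs.1) (hb s hs)]
      cases j with
      | zero =>
        rw [← MM 1 (u_le 0 hts) (u_le 0 hs.1) (ha s hs),
          MM 0 (y_le 0 hts) (u_le 0 hs.1) (hb s hs)]
        simp only [W, L, smul_apply, add_apply, one_apply_eq_self, map_smul, map_add,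
          MF 1 _ (u_le 0 hts), y]
        simp
      | succ j =>
        rw [← MM 0 (u_le _ hts) (u_le 0 hs.1) (ha s hs)]
        simp only [W, L, smul_apply, add_apply, one_apply_eq_self, map_smul, map_add,
          ContinuousLinearMap.comp_apply, MF 0 _ (u_le _ hts), MF 0 _ (y_le _ hts)]
        simp [smul_smul, pow_succ, mul_comm]
    have ia := (cont_of ca ha (c := 0) (by simp) (-ψ)).intervalIntegrable_of_Icc (μ := volume) ht
    have ib := (cont_of cb hb (c := 0) (by simp) (-ψ)).intervalIntegrable_of_Icc (μ := volume) ht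
    have ib' : IntervalIntegrable (fun s => F (M (fun n => y j (t - s) n * u 0 s n) 0 (-ψ)))
        volume 0 t := (F.continuous.comp_continuousOn
      (cont_of cb hb (c := 0) (by simp) (-ψ))).intervalIntegrable_of_Icc ht
    constructor
    · refine ((ia.add ib').smul (c ^ (j + 1))).congr ?_
      intro s hs
      rw [uIoc_of_le ht] at hs
      exact (hF s (Ioc_subset_Icc_self hs)).symm
    · rw [intervalIntegral.integral_congr (fun s hs => hF s (by rwa [uIcc_of_le ht] at hs)),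
        intervalIntegral.integral_smul, intervalIntegral.integral_add ia ib',
        F.intervalIntegral_comp_comm ib,
        int_M ht ca ha (-ψ) (ξ := M (u (j + 1) t) 0 φ) (by rw [QM (u_le _ ht), zero_smul])
          (fun n => by rw [evM (u_le _ ht), hχ, ← mul_assoc, int_u]),
        int_M ht cb hb (-ψ) (ξ := M (y (j + 1) t) 0 φ) (by rw [QM (y_le _ ht), zero_smul])
          (fun n => by
            rw [evM (y_le _ ht), hχ, ← mul_assoc, int_y, y, Finset.sum_range_succ']; ring)]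
      rfl
  · have h1 : Tendsto (u 1 t) atTop (𝓝 0) := by
      rcases ht.eq_or_lt with rfl | ht'
      · exact tendsto_const_nhds.congr fun n => by simp [u]
      · exact u_lim 1 ht'
    have := wc (C := c • M (u 1 t) 0) ((compact_M h1).smul c) J (c • F₂ ∘L M (y 1 t) 0)
    convert this using 1
    ext1 φ
    simp [W, F]
  · refine F_not ?_
    have h1 : Tendsto (fun n => 1 - y 3 t n) atTop (𝓝 0) := by
      have := tendsto_finsetSum (Finset.range 3) fun i _ => u_lim i ht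
      simpa [y] using this
    have hb : ∀ n, |1 - y 3 t n| ≤ 2 := fun n => by
      have := abs_le.1 (y_le 3 ht.le n)
      rw [abs_le]; constructor <;> linarith
    have h2 := ((hc.smul (c ^ 3)⁻¹).sub (compact_M (u_lim 3 ht))).add ((compact_M h1).clm_comp F)
    refine (congrArg IsCompactOperator (funext fun φ => ?_)).mpr h2
    have h3 : M 1 0 φ = M (y 3 t) 0 φ + M (fun n => 1 - y 3 t n) 0 φ :=
      ext2 (fun n => by
        rw [map_add, evM (C := 1) (by simp), evM (y_le 3 ht.le), evM hb]; simp; ring)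
        (by rw [map_add, QM (C := 1) (by simp), QM (y_le 3 ht.le), QM hb]; simp)
    have h4 : (c ^ 3)⁻¹ * c ^ 3 = 1 := inv_mul_cancel₀ (pow_pos c_pos 3).ne'
    simp [W, h3, smul_smul, h4]
  · have hev : ∀ {t : ℝ}, 0 ≤ t → ∀ k φ, ev k (W 4 t φ) = c ^ 4 * (u 4 t k * ev k φ) := by
      intro t ht k φ
      simp only [W, smul_apply, add_apply, ContinuousLinearMap.comp_apply, map_smul, map_add,
        ev_F, evM (u_le _ ht), add_zero, smul_eq_mul]
    have h1 : Tendsto (fun k : ℕ => 1 / ((k : ℝ) + 1)) atTop (𝓝[Ici 0] 0) :=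
      tendsto_nhdsWithin_iff.2 ⟨tendsto_one_div_add_atTop_nhds_zero_nat,
        Eventually.of_forall fun k => mem_Ici.2 (by positivity)⟩
    have h2 := tendsto_iff_norm_sub_tendsto_zero.1 ((hc 0 (mem_Ici.2 le_rfl)).tendsto.comp h1)
    have h3 : ∀ k : ℕ, c ^ 4 * u 4 1 1 ≤ ‖W 4 (1 / ((k : ℝ) + 1)) - W 4 0‖ := by
      intro k
      have a1 := (abs_le_norm _ (k + 1)).trans
        ((W 4 (1 / ((k : ℝ) + 1)) - W 4 0).le_opNorm (e (k + 1)))
      rw [norm_e, mul_one, ← ev_ap, sub_apply, map_sub, hev (by positivity), hev le_rfl, ev_e,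
        if_pos rfl] at a1
      refine le_trans (le_of_eq ?_) ((le_abs_self _).trans a1)
      have : ((k + 1 : ℕ) : ℝ) * (1 / ((k : ℝ) + 1)) = 1 := by push_cast; field_simp
      simp only [u, this]
      simp
    have h4 : 0 < c ^ 4 * u 4 1 1 := by have := c_pos; unfold u; positivity
    exact absurd (ge_of_tendsto' h2 h3) (not_le.2 h4)

end Pool.Agent.Results.MP_c2298c_an.NotCompact
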